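import Pool.Agent.Lib.MP_33b3f9_ag.M8.FP.End
import Pool.Agent.Lib.MP_33b3f9_ag.MG.CL.Main
import Pool.Agent.Lib.MP_33b3f9_ag.MG.FrP

/-!
From fixed tensors to the irreducibility of the adjoint action on every factor of the commutant.
-/

set_option autoImplicit false

namespace MG.FP

open Matrix M4 M4.FP M8.FP

section generic

variable {ι κ : Type} [Fintype ι] [DecidableEq ι] [Fintype κ] [DecidableEq κ]
  {G : Subgroup (symplecticGroup ι ℤ)}

theorem dK_lin {ν A B : Type} [Fintype ν] [DecidableEq ν] [CommRing A] [CommRing B] (φ : A →+ B)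
    (X : Matrix ν ν A) (p q : κ → ν) : φ (dK κ X p q) = dK κ (X.map φ) p q := by
  simp only [dK, Matrix.sum_apply, map_sum, phi_apply, one_apply, Finset.prod_ite_zero,
    Finset.prod_const_one, mul_ite, mul_one, mul_zero, apply_ite φ, map_zero, map_apply]

/-- The annihilator of the invariant tensors is defined over the rational numbers. -/
theorem kills_rat {X : Matrix (ι ⊕ ι) (ι ⊕ ι) ℂ} (hs : InSp X) (h0 : X ≠ 0) (hX : Kills G X) :
    ∃ Y : Matrix (ι ⊕ ι) (ι ⊕ ι) ℚ, Y ≠ 0 ∧ InSp (Y.map (algebraMap ℚ ℂ)) ∧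
      Kills G (Y.map (algebraMap ℚ ℂ)) := by
  obtain ⟨i, j, h1⟩ : ∃ i j, X i j ≠ 0 := by
    by_contra h
    push Not at h
    exact h0 (Matrix.ext h)
  obtain ⟨φ, hφ⟩ : ∃ φ : ℂ →ₗ[ℚ] ℚ, φ (X i j) = 1 := Module.Projective.exists_dual_eq_one ℚ h1
  refine ⟨X.map φ, fun h => one_ne_zero (hφ.symm.trans (congrFun (congrFun h i) j)), ?_,
    fun κ _ _ χ hχ t ht => ?_⟩
  · have h2 : (X.map φ)ᵀ * J ι ℚ + J ι ℚ * X.map φ = 0 := by
      ext p q
      have h3 := congrArg φ (congrFun (congrFun hs p) q)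
      rw [← map_J ι (algebraMap ℚ ℂ)] at h3
      simpa only [Matrix.add_apply, mul_apply, transpose_apply, map_apply, map_add, map_sum,
        mul_comm (X _ _), ← Algebra.smul_def, map_smul, smul_eq_mul, mul_comm (φ _),
        Matrix.zero_apply, map_zero] using h3
    have h3 := congrArg (algebraMap ℚ ℂ).mapMatrix h2
    rw [map_add, map_mul, map_mul, map_zero, RingHom.mapMatrix_apply _ (J ι ℚ), map_J] at h3
    exact h3
  · have h2 : Submodule.span ℂ ((fun s : (κ → ι ⊕ ι) → ℚ => fun a => algebraMap ℚ ℂ (s a)) ''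
        (Wsp κ ℚ G χ : Set _)) ≤
          LinearMap.ker (dK κ ((X.map φ).map (algebraMap ℚ ℂ))).mulVecLin := by
      rw [Submodule.span_le]
      rintro _ ⟨s, hs, rfl⟩
      funext p
      have h3 := congrArg (fun x => algebraMap ℚ ℂ (φ x))
        (congrFun (hX κ χ hχ _ ((Wsp_map ℂ).2 hs)) p)
      simp only [mulVec, dotProduct, map_sum, mul_comm (dK κ X _ _), ← Algebra.smul_def, map_smul,
        smul_eq_mul, map_mul, Pi.zero_apply, map_zero] at h3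
      refine Eq.trans (Finset.sum_congr rfl fun q _ => ?_) h3
      rw [mul_comm, show φ (dK κ X p q) = _ from dK_lin φ.toAddMonoidHom X p q]
      exact congrArg _ (dK_lin (algebraMap ℚ ℂ).toAddMonoidHom _ p q).symm
    exact h2 (Wsp_span ℂ ht)

theorem nil_inv {R : Type} [Ring R] [Algebra ℂ R] {N : R} (h : N * N = 0) (d : ℂ) :
    (1 + d • N) * (1 + -d • N) = 1 := by
  simp [add_mul, mul_add, h]

theorem nil_mem {N : Matrix (ι ⊕ ι) (ι ⊕ ι) ℂ} (hs : InSp N) (h0 : N * N = 0) (c : ℂ) :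
    1 + c • N ∈ symplecticGroup ι ℂ := by
  have h : Nᵀ * J ι ℂ = -(J ι ℂ * N) := eq_neg_of_add_eq_zero_left hs
  rw [SymplecticGroup.mem_iff', transpose_add, transpose_one, transpose_smul, Matrix.add_mul,
    Matrix.one_mul, Matrix.smul_mul, h, Matrix.mul_add, Matrix.mul_one, Matrix.mul_smul,
    Matrix.add_mul, Matrix.smul_mul, Matrix.neg_mul, Matrix.mul_assoc, h0]
  simp

end generic

theorem two_line (X : M8 ℂ) : ∃ v : ω → ℚ, Nv (fun i => (v i : ℂ)) ∉ ℂ ∙ X := by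
  by_contra h
  push Not at h
  obtain ⟨c, hc⟩ := Submodule.mem_span_singleton.1 (h (Pi.single (.inl 0) 1))
  obtain ⟨c', hc'⟩ := Submodule.mem_span_singleton.1 (h (Pi.single (.inl 1) 1))
  have h1 := congrFun (congrFun hc (.inl 0)) (.inr 0)
  have h2 := congrFun (congrFun hc' (.inl 0)) (.inr 0)
  have h3 := congrFun (congrFun hc' (.inl 1)) (.inr 1)
  simp [Nv, mul_apply, vecMulVec_apply, J, Pi.single_apply, one_apply] at h1 h2 h3
  rcases h2 with h2 | h2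
  · simp [h2] at h3
  · simp [h2] at h1

variable [Dim] {e : ℕ} {a b : MZ} {G : Subgroup (symplecticGroup ι ℤ)} {I : Matrix ν ν ℝ}
  {κ : Type} [Fintype κ] [DecidableEq κ] (z : Mor e a b ℂ)

/-- The logarithm of a transvection of one factor. -/
noncomputable def Nz (s : Fin e) (v : ω → ℚ) : Matrix ν ν ℂ :=
  z.em (Pi.single s (Nv fun i => (v i : ℂ)))

theorem sp_single (s : Fin e) {Y : M8 ℂ} (hY : InSp Y) : InSp (z.em (Pi.single s Y)) :=
  (z.sp_iff _).2 fun t => by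
    by_cases h : t = s
    · rw [h, Pi.single_eq_same]
      exact hY
    · rw [Pi.single_eq_of_ne h]
      simp [Pool.Agent.M4.Mx.Sp]

theorem Nz_sq (s : Fin e) (v : ω → ℚ) : Nz z s v * Nz z s v = 0 := by
  rw [Nz, ← map_mul, ← Pi.single_mul, Nv_mul_Nv, Pi.single_zero, map_zero]

theorem Nz_mem (s : Fin e) (v : ω → ℚ) (c : ℂ) : 1 + c • Nz z s v ∈ symplecticGroup ι ℂ :=
  nil_mem (sp_single z s (inSp_Nv _)) (Nz_sq z s v) c

theorem Nz_conj (s : Fin e) (v : ω → ℚ) (c : ℂ) (x : Fin e → M8 ℂ) :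
    (1 + c • Nz z s v) * z.em x * (1 + -c • Nz z s v) - z.em x = z.em (Pi.single s
      ((1 + c • Nv fun i => (v i : ℂ)) * x s * (1 + -c • Nv fun i => (v i : ℂ)) - x s)) := by
  rw [Nz, ← map_one z.em, ← map_smul, ← map_smul, ← map_add, ← map_add, ← map_mul, ← map_mul,
    ← map_sub]
  refine congrArg z.em (funext fun t => ?_)
  by_cases h : t = s
  · subst h
    simp
  · simp [h]

/-- A space that is stable under all transvections contains the factors on which it projects. -/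
theorem blk (k : Submodule ℂ (Matrix ν ν ℂ)) (hk : ∀ (s : Fin e) (w : ω → ℚ) (d : ℚ), ∀ X ∈ k,
    (1 + (d : ℂ) • Nz z s w) * X * (1 + -(d : ℂ) • Nz z s w) ∈ k) {x : Fin e → M8 ℂ}
    (hx : z.em x ∈ k) {s : Fin e} (hs : InSp (x s)) (h0 : x s ≠ 0) {Y : M8 ℂ} (hY : InSp Y) :
    z.em (Pi.single s Y) ∈ k := by
  obtain ⟨w, d, h1⟩ : ∃ (w : ω → ℚ) (d : ℚ), (1 + (d : ℂ) • Nv fun i => (w i : ℂ)) * x s *
      (1 + -(d : ℂ) • Nv fun i => (w i : ℂ)) - x s ≠ 0 := by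
    by_contra h
    push Not at h
    obtain ⟨v, hv⟩ := two_line (x s)
    refine hv (irr _ (fun w d U hU => ?_) (Submodule.mem_span_singleton_self _) hs h0 v)
    obtain ⟨c, rfl⟩ := Submodule.mem_span_singleton.1 hU
    rwa [mul_smul_comm, smul_mul_assoc, sub_eq_zero.1 (h w d)]
  have h2 := k.sub_mem (hk s w d _ hx) hx
  rw [Nz_conj] at h2
  refine sp_mem (k.comap (z.em.toLinearMap ∘ₗ LinearMap.single ℂ (fun _ => M8 ℂ) s)) (fun v =>
    irr _ (fun w d U hU => ?_) (X := _ - x s) h2 ?_ h1 v) hY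
  · have h3 := hk s w d _ hU
    change _ * z.em (Pi.single s U) * _ ∈ k at h3
    rw [eq_add_of_sub_eq (Nz_conj z s w d _), ← map_add, ← Pi.single_add, Pi.single_eq_same,
      sub_add_cancel] at h3
    exact h3
  · have h3 := hs.conj (tv_mem (fun i => (w i : ℂ)) d) (tv_inv _ _)
    rw [InSp] at h3 hs ⊢
    rw [transpose_sub, sub_mul, mul_sub, sub_add_sub_comm, h3, hs, sub_zero]

theorem gen_stable {χ : symplecticGroup ι ℤ → ℤ} (hI : GEN a b I)
    (h : ∀ t ∈ Wsp κ ℂ G χ, ∀ p q : ℝ, (p, q) ≠ 0 → K κ (hm p q I) *ᵥ t ∈ Wsp κ ℂ G χ)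
    (s : Fin e) (v : ω → ℚ) (c : ℂ) :
    ∀ t ∈ Wsp κ ℂ G χ, K κ (1 + c • Nz z s v) *ᵥ t ∈ Wsp κ ℂ G χ := by
  refine (gen_iff _).1 fun P hP => hI _ (SymplecticGroup.mem_iff'.1 (Nz_mem z s v c))
    ((Commute.one_right _).add_right ((z.comm_a _).smul_right c))
    ((Commute.one_right _).add_right ((z.comm_b _).smul_right c)) P ?_
  refine ⟨_, ⟨⟨genStab κ _ G χ, Set.ext fun x => (gen_iff _).symm⟩, fun u v huv Q hQ => ?_⟩, hP⟩
  have h1 := (gen_iff (hm u v I)).2 (fun t ht => h t ht u v huv) Q hQ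
  have h2 := gen_evalM Complex.ofRealHom (u • (1 : Matrix ν ν ℝ) + v • I) Q
  exact Complex.ofReal_eq_zero.1 (h2.symm.trans h1)

/-- The transvections fix a stable space of tensors that is killed by an element of the Lie
algebra with nonzero components. -/
theorem em_fix (V : Submodule ℂ ((κ → ν) → ℂ))
    (hV : ∀ s v (c : ℂ), ∀ t ∈ V, K κ (1 + c • Nz z s v) *ᵥ t ∈ V) {x : Fin e → M8 ℂ}
    (hs : ∀ s, InSp (x s)) (h0 : ∀ s, x s ≠ 0) (hX : ∀ t ∈ V, dK κ (z.em x) *ᵥ t = 0)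
    (s : Fin e) (v : ω → ℚ) (c : ℚ) : ∀ t ∈ V, K κ (1 + (c : ℂ) • Nz z s v) *ᵥ t = t := by
  let k : Submodule ℂ (Matrix ν ν ℂ) :=
    { carrier := {Y | ∀ t ∈ V, dK κ Y *ᵥ t = 0}
      zero_mem' := fun t _ => by rw [dK_zero, zero_mulVec]
      add_mem' := fun {Y Z} hY hZ t ht => by rw [dK_add, add_mulVec, hY t ht, hZ t ht, add_zero]
      smul_mem' := fun d Y hY t ht => by rw [dK_smul, smul_mulVec, hY t ht, smul_zero] }
  have hv : Nz z s v ∈ k := by
    refine blk z k (fun s w d Y hY t ht => ?_) hX (hs s) (h0 s) (inSp_Nv _)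
    rw [dK_conj (nil_inv (Nz_sq z s w) _), ← mulVec_mulVec, ← mulVec_mulVec,
      hY _ (hV _ _ _ t ht), mulVec_zero]
  intro t ht
  have h := K_tv_fix (Nz_sq z s v) (hv t ht) (c : ℝ)
  rwa [Complex.ofReal_ratCast] at h

theorem mem_gC {X : Matrix ν ν ℂ} : X ∈ M8.E3.gC (CL.AB a b) ↔
    InSp X ∧ Commute (zM ℂ a) X ∧ Commute (zM ℂ b) X := by
  rw [zM, zM, ← E3.cx_zr, ← E3.cx_zr]
  refine ⟨fun h => ⟨h.1, (h.2 _ (Or.inl rfl)).symm, (h.2 _ (Or.inr rfl)).symm⟩, fun h => ⟨h.1, ?_⟩⟩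
  rintro x (rfl | rfl)
  exacts [h.2.1.symm, h.2.2.symm]

theorem pr_sp {X : Matrix ν ν ℂ} (h : InSp X) (ha : Commute (zM ℂ a) X)
    (hb : Commute (zM ℂ b) X) (s : Fin e) : InSp (z.pr X s) := by
  rw [← z.em_pr ha hb] at h
  exact (z.sp_iff _).1 h s

include z in
theorem two (he : 0 < e) : CL.Two a b := fun X => by
  obtain ⟨v, hv⟩ := two_line (z.pr X ⟨0, he⟩)
  refine ⟨Nz z ⟨0, he⟩ v, mem_gC.2 ⟨sp_single z _ (inSp_Nv _), z.comm_a _, z.comm_b _⟩,
    fun c h => hv (Submodule.mem_span_singleton.2 ⟨c, ?_⟩)⟩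
  have h1 := congrFun (congrArg z.pr h) ⟨0, he⟩
  rw [Nz, z.pr_em, Pi.single_eq_same, map_smul] at h1
  exact h1.symm

theorem irr_of_fix (Φ : E3.Fr (Fin e) a b) (he : ∀ s, M8.E3.cx (Φ.ep s) = z.ep s) (hI : GEN a b I)
    (hF : FixU G I) (hC : ∀ g ∈ G, Com a b g.1) : CL.IRR a b Φ.ep G := by
  obtain ⟨hst, X, hs, h0, hX⟩ := hF
  obtain ⟨X, h0, hs, hX⟩ := kills_rat hs h0 hX
  have hc : ∀ x : MZ, (∀ g ∈ G, g.1 * x = x * g.1) → Commute (zM ℂ x) (X.map (algebraMap ℚ ℂ)) :=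
    fun x hx => hX.comm hs fun g hg => by
      have h := congrArg (fun y : MZ => y.map (Int.castRingHom ℂ)) (hx g hg)
      simp only [Matrix.map_mul] at h
      exact h.symm
  have ha := hc a fun g hg => (hC g hg).1
  have hb := hc b fun g hg => (hC g hg).2
  have hA : ∀ (s : Fin e) (v : ω → ℚ) (c : ℚ),
      K (Fin 2) (1 + (c : ℂ) • Nz z s v) ∈ Aspan ℂ G := fun s v c =>
    mem_Aspan fun m χ hχ => em_fix z _ (gen_stable z hI (hst _ χ hχ))
      (pr_sp z hs ha hb) (fun s h => h0 (Φ.rat (s := s)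
        (Matrix.map_injective Complex.ofReal_injective (by
          have h1 := z.ep_mul s (z.pr (X.map (algebraMap ℚ ℂ)))
          rw [h, z.em_pr ha hb, Pi.single_zero, map_zero, ← he] at h1
          exact (M8.E3.cx_mul _ _).trans (h1.trans (Matrix.map_zero _ Complex.ofReal_zero).symm)))))
      (by rw [z.em_pr ha hb]; exact hX _ χ hχ) s v c
  refine ⟨hC, fun k hk hG s Z hZ hZ0 Y hY => ?_⟩
  obtain ⟨z1, z2, z3⟩ := mem_gC.1 (hk hZ)
  obtain ⟨y1, y2, y3⟩ := mem_gC.1 hY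
  rw [he, ← z.em_pr y2 y3, z.ep_mul]
  refine blk z k (fun s w d => conj_of_Aspan k (fun g hg V hV => ?_) (Nz_mem z s w d)
    (nil_inv (Nz_sq z s w) _) (hA s w d)) (x := z.pr Z) (by rwa [z.em_pr z2 z3])
    (pr_sp z z1 z2 z3 s) (fun h => hZ0 (by
      rw [he, ← z.em_pr z2 z3, z.ep_mul, h, Pi.single_zero, map_zero])) (pr_sp z y1 y2 y3 s)
  have h := hG (cm ℝ g) ⟨g, hg, rfl⟩ (cm ℝ g⁻¹) (by rw [← cm_mul, mul_inv_cancel, cm_one]) V hV
  rwa [M8.E3.cx, M8.E3.cx, show ∀ x : symplecticGroup ι ℤ,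
    (cm ℝ x).map Complex.ofReal = cm ℂ x from cm_map Complex.ofRealHom,
    show ∀ x : symplecticGroup ι ℤ,
    (cm ℝ x).map Complex.ofReal = cm ℂ x from cm_map Complex.ofRealHom] at h

end MG.FP
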